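import Pool.Agent.X71.Hub.Small
import Pool.Agent.X71.Hub.Lower

/-!
# The strong hub cover pebbling number of cycles

The definitions (`Move`, `Reach`, `IsStrongHubSet`, `HubCoverable`, `hubCoverSet`,
`IsHubCoverPebblingNumber`, `cycleValue`) are in `Pool.Agent.X71.Hub.Def`.
-/

namespace Pool.Agent.Results.MP_7e79aa_co.HubCoverCycles

open Pool.Agent.X71.Hub SimpleGraph

/-- The strong hub cover pebbling number of the cycle on `n` vertices equals
`2 ^ k + 2 ^ (k - 1) - 3` for `n = 2 k` and `2 ^ (k + 1) - 3` for `n = 2 k + 1`, for every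
`n ≥ 3`. -/
theorem result (n : ℕ) (hn : 3 ≤ n) :
    IsHubCoverPebblingNumber (cycleGraph n) (cycleValue n) := by
  refine ⟨?_, ?_⟩
  · intro c hc
    by_cases h8 : 8 ≤ n
    · obtain ⟨a, b, ha, hb, hab, rfl, hv⟩ : ∃ a b, 3 ≤ a ∧ 2 ≤ b ∧ (a = b ∨ a = b + 1) ∧
          n = a + b + 3 ∧ cycleValue n = 2 ^ (a + 1) + 2 ^ (b + 1) - 3 := by
        rcases Nat.even_or_odd n with he | ho
        · obtain ⟨k, hk⟩ := he
          refine ⟨k - 1, k - 2, by omega, by omega, Or.inr (by omega), by omega, ?_⟩
          unfold cycleValue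
          rw [if_pos ⟨k, hk⟩]
          have e1 : n / 2 = k := by omega
          have e2 : k - 1 + 1 = k := by omega
          have e3 : k - 2 + 1 = k - 1 := by omega
          rw [e1, e2, e3]
        · have hne : ¬ Even n := Nat.not_even_iff_odd.2 ho
          obtain ⟨k, hk⟩ := ho
          refine ⟨k - 1, k - 1, by omega, by omega, Or.inl rfl, by omega, ?_⟩
          unfold cycleValue
          rw [if_neg hne]
          have e1 : n / 2 = k := by omega
          have e2 : k - 1 + 1 = k := by omega
          rw [e1, e2, pow_succ]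
          omega
      apply upper_large a b ha hb hab c
      rw [hv] at hc
      have h1 : 1 ≤ 2 ^ a := Nat.one_le_two_pow
      have h2 : 1 ≤ 2 ^ b := Nat.one_le_two_pow
      have e1 : 2 ^ (a + 1) = 2 * 2 ^ a := by ring
      have e2 : 2 ^ (b + 1) = 2 * 2 ^ b := by ring
      have h3 : ∑ v, c v + 3 = 2 ^ (a + 1) + 2 ^ (b + 1) := by omega
      have h4 : ((∑ v, c v + 3 : ℕ) : ℤ) = ((2 ^ (a + 1) + 2 ^ (b + 1) : ℕ) : ℤ) := by rw [h3]
      push_cast at h4
      linarith
    · push Not at h8
      have e3 : cycleValue 3 = 1 := by decide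
      have e4 : cycleValue 4 = 3 := by decide
      have e5 : cycleValue 5 = 5 := by decide
      have e6 : cycleValue 6 = 9 := by decide
      have e7 : cycleValue 7 = 13 := by decide
      interval_cases n
      · exact upper_three c (by rw [hc, e3])
      · exact upper_four c (by rw [hc, e4])
      · exact upper_five c (by rw [hc, e5])
      · exact upper_six c (by rw [hc, e6])
      · exact upper_seven c (by rw [hc, e7])
  · intro t ht
    obtain ⟨m, rfl⟩ : ∃ m, n = m + 3 := ⟨n - 3, by omega⟩
    exact lower m t ht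

end Pool.Agent.Results.MP_7e79aa_co.HubCoverCycles
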